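import Pool.Agent.W528.HG.Est

/-!
# The L-functions of superelliptic Jacobians over Artin-Schreier coverings
-/

set_option autoImplicit false

namespace Pool.Agent.W528.HG

open Finset Polynomial Pool.Agent.W528.HA Pool.Agent.W528.HB Pool.Agent.W528.HD

/-- `∏_{x ∈ A} (1 - x T)` is the L-function of the character with exponents `(j, s, lam)`: for every
finite extension `L` of `κ`, of degree `n`, the sum of the `x ^ n` is `asSum`. -/
def IsAsL (κ : Type) [Field κ] [Fintype κ] {E : Type} [Field E] (p r c : ℕ) {m h : ℕ}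
    (f : Fin m → κ[X]) (a : Fin m → ℕ) (g : Fin h → κ[X]) (z : κ) (μ ν : E) (j s : ℕ)
    (lam : Fin h → Fin c) (A : Multiset E) : Prop :=
  ∀ (L : Type) [Field L] [Fintype L] [Algebra κ L],
    (A.map fun x => x ^ Module.finrank κ L).sum
      = asSum L E p r c (fun i => (f i).map (algebraMap κ L)) a
        (fun l => (g l).map (algebraMap κ L)) (algebraMap κ L z) μ ν j s lam

/-- `∏ (1 - x T)` over all `x ∈ A j s lam`, `0 < j < p`, `0 ≤ s < r`, `lam ∈ {0, ..., c - 1} ^ h`. -/
noncomputable def asPoly {E : Type} [Field E] (p r c h : ℕ)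
    (A : ℕ → ℕ → (Fin h → Fin c) → Multiset E) : E[X] :=
  ∏ j ∈ Ico 1 p, ∏ s ∈ range r, ∏ lam : Fin h → Fin c,
    ((A j s lam).map fun x => 1 - C x * X).prod

lemma asSum_eq {L : Type} [Field L] [Fintype L] {R : Type} [CommRing R] (p r c : ℕ) {m h : ℕ}
    (f : Fin m → L[X]) (a : Fin m → ℕ) (g : Fin h → L[X]) (z : L) (μ ν : R) (j s : ℕ)
    (lam : Fin h → Fin c) :
    asSum L R p r c f a g z μ ν j s lam
      = gSumA L R (p * r) c (fun _ : Fin m => (1 : L)) (fun i => -(f i))
        (fun i => r * (j * a i % p)) (p * s) (∑ l, C ((lam l : ℕ) : L) * g l) z μ ν := by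
  unfold asSum gSumA
  refine sum_congr rfl fun x _ => sum_congr rfl fun t _ => ?_
  simp only [one_mul, eval_neg, sub_eq_add_neg, eval_finsetSum, eval_mul, eval_C]

theorem fin_as (hAV : AV) (hGN : GN) (hONE : ONE) (hGE : GE) (hAP : AP) (hPS : PS)
    {p r c D : ℕ} (hp : p.Prime) (hr : 0 < r) (hrp : r.Coprime p)
    [Fact c.Prime] (hcr : ¬ c ∣ r) (hpc : p ∣ c - 1)
    (κ : Type) [Field κ] [Fintype κ] [CharP κ c]
    {z : κ} (hz : IsPrimitiveRoot z (p * r)) {E : Type} [Field E] [CharZero E] [IsAlgClosed E]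
    {μ ν : E} (hμ : IsPrimitiveRoot μ (p * r)) (hν : IsPrimitiveRoot ν c) {m h : ℕ} (hD : 1 ≤ D)
    (f : Fin m → κ[X]) (hf : ∀ i, (f i).natDegree ≤ D)
    (a : Fin m → ℕ) (ha : ∀ i, 0 < a i) (ha2 : 2 * D * ∑ i, a i < p)
    (g : Fin h → κ[X]) (hg : ∀ l, (g l).natDegree ≤ D)
    (A : ℕ → ℕ → (Fin h → Fin c) → Multiset E)
    (hA : ∀ j s lam, 0 < j → j < p → s < r → IsAsL κ p r c f a g z μ ν j s lam (A j s lam)) :
    (∀ (L : Type) [Field L] [Fintype L] [Algebra κ L],
      ∑ j ∈ Ico 1 p, ∑ s ∈ range r, ∑ lam : Fin h → Fin c,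
          ((A j s lam).map fun x => x ^ Module.finrank κ L).sum
        = (asPoints L p r c (fun i => (f i).map (algebraMap κ L)) a
              (fun l => (g l).map (algebraMap κ L)) : E)
          - (Fintype.card L : E) * (asBase L r c (fun l => (g l).map (algebraMap κ L)) : E)) ∧
    ∀ (ζ : E) (M : ℕ), 0 < M → ζ ^ M = 1 →
      (asPoly p r c h A).eval (ζ * (Fintype.card κ : E)⁻¹) ≠ 0 := by
  classical
  have hc : c.Prime := Fact.out
  obtain ⟨F, hF0, hF⟩ := FiniteField.card κ c
  have hF0' : 0 < (F : ℕ) := F.2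
  have hN : 2 ≤ p * r := le_trans hp.two_le (Nat.le_mul_of_pos_right p hr)
  refine ⟨?_, ?_⟩
  · intro L _ _ _
    have : CharP L c := charP_of_injective_algebraMap (algebraMap κ L).injective c
    have hzL : IsPrimitiveRoot (algebraMap κ L z) (p * r) :=
      hz.map_of_injective (algebraMap κ L).injective
    have hap : ∀ i, 0 < a i ∧ a i < p := by
      intro i
      refine ⟨ha i, ?_⟩
      have h1 := single_le_sum (f := a) (fun _ _ => Nat.zero_le _) (mem_univ i)
      have h2 : ∑ i, a i ≤ 2 * D * ∑ i, a i := Nat.le_mul_of_pos_left _ (by omega)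
      omega
    rw [← hPS c L p r (algebraMap κ L z) hp hr hrp hzL E μ ν hμ hν m h _ a _ hap]
    refine sum_congr rfl fun j hj => sum_congr rfl fun s hs => sum_congr rfl fun lam _ => ?_
    rw [mem_Ico] at hj
    exact hA j s lam hj.1 hj.2 (mem_range.mp hs) L
  · intro ζ M hM hζ h0
    have hq : (Fintype.card κ : E) ≠ 0 := by exact_mod_cast Fintype.card_ne_zero
    unfold asPoly at h0
    rw [eval_prod, prod_eq_zero_iff] at h0
    obtain ⟨j, hj, h0⟩ := h0
    rw [eval_prod, prod_eq_zero_iff] at h0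
    obtain ⟨s, hs, h0⟩ := h0
    rw [eval_prod, prod_eq_zero_iff] at h0
    obtain ⟨lam, -, h0⟩ := h0
    rw [eval_multiset_prod, Multiset.prod_eq_zero_iff, Multiset.map_map, Multiset.mem_map] at h0
    obtain ⟨x, hx, h0⟩ := h0
    rw [mem_Ico] at hj
    simp only [Function.comp, eval_sub, eval_one, eval_mul, eval_C, eval_X] at h0
    have h1 : x * ζ = (Fintype.card κ : E) := by
      have h2 : x * (ζ * (Fintype.card κ : E)⁻¹) = 1 := (sub_eq_zero.mp h0).symm
      field_simp at h2
      linear_combination h2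
    have hs' := mem_range.mp hs
    obtain ⟨hpos, j', hj', hsum⟩ := hAP p r c F D hp hr hrp hc hcr hpc hF0' m a ha ha2 hD j s hj.1
      hj.2 hs'
    refine g_nonvanishA hAV hGN hONE hGE hN κ hF hz hμ hν hD (fun _ : Fin m => (1 : κ))
      (fun i => -(f i)) (fun i => by rw [natDegree_neg]; exact hf i)
      (fun i => r * (j * a i % p)) ?_ (p * s) ?_ hj' (∑ l, C ((lam l : ℕ) : κ) * g l) ?_
      hsum (A j s lam) ?_ x hx M hM ?_
    · intro i
      rw [mul_comm p r]
      exact Nat.mul_lt_mul_of_pos_left (Nat.mod_lt _ hp.pos) hr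
    · exact Nat.mul_lt_mul_of_pos_left hs' hp.pos
    · apply natDegree_sum_le_of_forall_le
      intro l _
      exact (natDegree_C_mul_le _ _).trans (hg l)
    · intro L _ _ _
      rw [hA j s lam hj.1 hj.2 hs' L, asSum_eq]
      simp only [Polynomial.map_neg, map_one, Polynomial.map_sum, Polynomial.map_mul,
        map_natCast, Polynomial.map_natCast]
    · rw [← h1, mul_pow, hζ, mul_one]

end Pool.Agent.W528.HG
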