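import Pool.Agent.W528.HD.Stm

/-!
# Artin-Schreier coverings of the base: statements of the parts
-/

set_option autoImplicit false

namespace Pool.Agent.W528.HG

open Finset Polynomial Pool.Agent.W528.HA Pool.Agent.W528.HB

/-- The absolute trace `y + y ^ c + y ^ (c ^ 2) + ...` of the finite field `L` of
characteristic `c`. -/
noncomputable def absTr (L : Type) [Field L] [Fintype L] (c : ℕ) (y : L) : L :=
  ∑ m ∈ range (Nat.log c (Fintype.card L)), y ^ (c ^ m)

/-- The additive character `y ↦ ν ^ Tr(y)` of the finite field `L` of characteristic `c`. -/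
noncomputable def av (L : Type) [Field L] [Fintype L] (R : Type) [CommRing R] (c : ℕ) (ν : R)
    (y : L) : R := by
  classical
  exact ∑ i ∈ range c, if absTr L c y = (i : L) then ν ^ i else 0

/-- `av` is the standard additive character. -/
def AV : Prop :=
  ∀ (c : ℕ) [Fact c.Prime] (L : Type) [Field L] [Fintype L] [CharP L c] (ν : PadicAlgCl c),
    IsPrimitiveRoot ν c → ∃ ψ : AddChar L (PadicAlgCl c), IsTr c L ψ ∧
      ∀ y, ψ y = av L (PadicAlgCl c) c ν y

/-- The sum over `(x, t) ∈ L²` of the value at `∏ (x - f_i(t)) ^ (r (j a_i mod p)) * t ^ (p s)` of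
the character of order `p r` of `L` belonging to `z ↦ μ`, times `ν ^ Tr(∑ λ_l g_l(t))`. -/
noncomputable def asSum (L : Type) [Field L] [Fintype L] (R : Type) [CommRing R] (p r c : ℕ)
    {m h : ℕ} (f : Fin m → L[X]) (a : Fin m → ℕ) (g : Fin h → L[X]) (z : L) (μ ν : R) (j s : ℕ)
    (lam : Fin h → Fin c) : R :=
  ∑ x : L, ∑ t : L, kv (p * r) z μ
    (((∏ i, (x - (f i).eval t) ^ (r * (j * a i % p))) * t ^ (p * s))
      ^ ((Fintype.card L - 1) / (p * r)))
    * av L R c ν (∑ l, ((lam l : ℕ) : L) * (g l).eval t)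

/-- The number of points `((x, u, y), w)` over `L` of the affine surface
`y ^ p = ∏ (x - f_i(u ^ r)) ^ a_i`, `w_l ^ c - w_l = g_l(u ^ r)` for all `l`. -/
noncomputable def asPoints (L : Type) [Field L] (p r c : ℕ) {m h : ℕ} (f : Fin m → L[X])
    (a : Fin m → ℕ) (g : Fin h → L[X]) : ℕ :=
  Set.ncard {v : (L × L × L) × (Fin h → L) |
    v.1.2.2 ^ p = ∏ i, (v.1.1 - (f i).eval (v.1.2.1 ^ r)) ^ a i ∧
    ∀ l, v.2 l ^ c - v.2 l = (g l).eval (v.1.2.1 ^ r)}

/-- The number of points `(u, w)` over `L` of the affine curve `w_l ^ c - w_l = g_l(u ^ r)`. -/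
noncomputable def asBase (L : Type) [Field L] (r c : ℕ) {h : ℕ} (g : Fin h → L[X]) : ℕ :=
  Set.ncard {v : L × (Fin h → L) | ∀ l, v.2 l ^ c - v.2 l = (g l).eval (v.1 ^ r)}

/-- The sum of all character sums. -/
def PS : Prop :=
  ∀ (c : ℕ) [Fact c.Prime] (L : Type) [Field L] [Fintype L] [CharP L c] (p r : ℕ) (z : L),
    p.Prime → 0 < r → r.Coprime p →
    IsPrimitiveRoot z (p * r) → ∀ (E : Type) [Field E] [CharZero E] (μ ν : E),
    IsPrimitiveRoot μ (p * r) → IsPrimitiveRoot ν c → ∀ (m h : ℕ) (f : Fin m → L[X])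
    (a : Fin m → ℕ) (g : Fin h → L[X]), (∀ i, 0 < a i ∧ a i < p) →
    ∑ j ∈ Ico 1 p, ∑ s ∈ range r, ∑ lam : Fin h → Fin c, asSum L E p r c f a g z μ ν j s lam
      = (asPoints L p r c f a g : E) - (Fintype.card L : E) * (asBase L r c g : E)

end Pool.Agent.W528.HG
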